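import Mathlib

/-!
The inequality between real numbers behind the bound.
-/

namespace Pool.Agent.H83.LP

open Finset

theorem sq_step (u x g : ℝ) (hg : 0 ≤ g) (hd : |x - u| ≤ 2) :
    (u - g) ^ 2 + 2 * (x - u) * u - 4 * g ≤ (x - g) ^ 2 := by
  have h1 := (abs_le.mp hd).2
  have h2 : (x - u) * g ≤ 2 * g := mul_le_mul_of_nonneg_right h1 hg
  nlinarith [sq_nonneg (x - u)]

theorem core (ε L G xs x1 x2 x3 gs g1 g2 g3 : ℝ) (hε : 0 < ε)
    (hx : xs + x1 + x2 + x3 = L) (hG : gs + g1 + g2 + g3 = G)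
    (h0 : 0 ≤ gs) (h1 : 0 ≤ g1) (h2 : 0 ≤ g2) (h3 : 0 ≤ g3)
    (hd1 : |x1 - (L - xs) / 3| ≤ 2) (hd2 : |x2 - (L - xs) / 3| ≤ 2)
    (hd3 : |x3 - (L - xs) / 3| ≤ 2) (hs : 4 * xs ≤ L)
    (hsq : ((1 / 2 + ε) * L - G) ^ 2 ≤ gs ^ 2 + g1 ^ 2 + g2 ^ 2 + g3 ^ 2)
    (hG25 : G ≤ 2 / 5 * L) (hL : 100 ≤ ε * L) (hL0 : 0 < L) :
    ε * L ^ 2 / 10 ≤ (xs - gs) ^ 2 + (x1 - g1) ^ 2 + (x2 - g2) ^ 2 + (x3 - g3) ^ 2 -
      (L - G) * ((L + 2 * xs) / 3 + 2 * (ε * L / 40) + 1 - G) := by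
  set u : ℝ := (L - xs) / 3 with hu
  have hxs : xs = L - 3 * u := by rw [hu]; ring
  have e1 := sq_step u x1 g1 h1 hd1
  have e2 := sq_step u x2 g2 h2 hd2
  have e3 := sq_step u x3 g3 h3 hd3
  have hsum : 2 * (x1 - u) * u + 2 * (x2 - u) * u + 2 * (x3 - u) * u = 0 := by
    have : x1 + x2 + x3 = 3 * u := by rw [hxs] at hx; linarith
    linear_combination (2 * u) * this
  set w : ℝ := 4 * u - L with hw
  have hw0 : 0 ≤ w := by rw [hw]; linarith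
  have hu' : u = (L + w) / 4 := by rw [hw]; ring
  have hG0 : 0 ≤ G := by rw [← hG]; positivity
  have hp1 : 0 ≤ w * (L / 2 - G) := mul_nonneg hw0 (by linarith)
  have hp2 : 0 ≤ gs * w := mul_nonneg h0 hw0
  have hid : (xs - gs) ^ 2 + (u - g1) ^ 2 + (u - g2) ^ 2 + (u - g3) ^ 2 =
      L ^ 2 / 4 + 3 * w ^ 2 / 4 - G * L / 2 - G * w / 2 +
        (gs ^ 2 + g1 ^ 2 + g2 ^ 2 + g3 ^ 2) + 2 * gs * w := by
    rw [hxs, hu', ← hG]
    ring
  have hD : (L + 2 * xs) / 3 = L / 2 - w / 2 := by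
    rw [hxs, hu']
    ring
  have hprod : (L - G) * (2 * (ε * L / 40) + 1) ≤ L * (2 * (ε * L / 40) + 1) := by
    apply mul_le_mul_of_nonneg_right (by linarith)
    linarith
  have hsq2 : (L / 2 - G) ^ 2 + ε * L ^ 2 / 5 ≤ ((1 / 2 + ε) * L - G) ^ 2 := by
    have h4 : 0 ≤ ε * L * (L - 2 * G - L / 5) := mul_nonneg (by positivity) (by linarith)
    have h4' := sq_nonneg (ε * L)
    linarith
  have h5 : 5 * L ≤ ε * L ^ 2 / 20 := by
    have : 100 * L ≤ ε * L * L := mul_le_mul_of_nonneg_right hL hL0.le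
    linarith
  have hg4 : 4 * g1 + 4 * g2 + 4 * g3 ≤ 4 * L := by linarith
  rw [hD]
  have hexp : (L - G) * (L / 2 - w / 2 + 2 * (ε * L / 40) + 1 - G) =
      (L - G) * (L / 2 - G) - (L - G) * w / 2 + (L - G) * (2 * (ε * L / 40) + 1) := by ring
  rw [hexp]
  have hw2 := sq_nonneg w
  linarith

/-- the inequality for the averages -/
theorem real_ineq (ε L G : ℝ) (x g : Fin 4 → ℝ) (s : Fin 4) (hε : 0 < ε)
    (hx : ∑ i, x i = L) (hG : ∑ i, g i = G) (h0 : ∀ i, 0 ≤ g i)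
    (hd : ∀ i, i ≠ s → |x i - (L - x s) / 3| ≤ 2) (hs : 4 * x s ≤ L)
    (hsq : ((1 / 2 + ε) * L - G) ^ 2 ≤ ∑ i, g i ^ 2)
    (hG25 : G ≤ 2 / 5 * L) (hL : 100 ≤ ε * L) (hL0 : 0 < L) :
    ε * L ^ 2 / 10 ≤ ∑ i, (x i - g i) ^ 2 -
      (L - G) * ((L + 2 * x s) / 3 + 2 * (ε * L / 40) + 1 - G) := by
  rw [Fin.sum_univ_four] at hx hG hsq ⊢
  have key : s = 0 ∨ s = 1 ∨ s = 2 ∨ s = 3 := by
    revert s
    intro s _ _
    fin_cases s <;> simp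
  rcases key with rfl | rfl | rfl | rfl
  · have := core ε L G (x 0) (x 1) (x 2) (x 3) (g 0) (g 1) (g 2) (g 3) hε hx hG (h0 0) (h0 1)
      (h0 2) (h0 3) (hd 1 (by decide)) (hd 2 (by decide)) (hd 3 (by decide)) hs hsq hG25 hL hL0
    linarith
  · have := core ε L G (x 1) (x 0) (x 2) (x 3) (g 1) (g 0) (g 2) (g 3) hε (by linarith)
      (by linarith) (h0 1) (h0 0)
      (h0 2) (h0 3) (hd 0 (by decide)) (hd 2 (by decide)) (hd 3 (by decide)) hs (by linarith)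
      hG25 hL hL0
    linarith
  · have := core ε L G (x 2) (x 0) (x 1) (x 3) (g 2) (g 0) (g 1) (g 3) hε (by linarith)
      (by linarith) (h0 2) (h0 0)
      (h0 1) (h0 3) (hd 0 (by decide)) (hd 1 (by decide)) (hd 3 (by decide)) hs (by linarith)
      hG25 hL hL0
    linarith
  · have := core ε L G (x 3) (x 0) (x 1) (x 2) (g 3) (g 0) (g 1) (g 2) hε (by linarith)
      (by linarith) (h0 3) (h0 0)
      (h0 1) (h0 2) (hd 0 (by decide)) (hd 1 (by decide)) (hd 2 (by decide)) hs (by linarith)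
      hG25 hL hL0
    linarith

end Pool.Agent.H83.LP
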