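import Pool.Agent.H83.LP.Plot
import Pool.Agent.H83.LP.Real

/-!
The number of triangles of one class.
-/

namespace Pool.Agent.H83.LP

open Pool.Agent.H99.PT Finset

theorem sum_sq_le {ι : Type*} (S : Finset ι) (a : ι → ℝ) (ha : ∀ p ∈ S, 0 ≤ a p) :
    ∑ p ∈ S, a p ^ 2 ≤ (∑ p ∈ S, a p) ^ 2 := by
  rw [sq, Finset.sum_mul]
  apply Finset.sum_le_sum
  intro p hp
  rw [sq]
  exact mul_le_mul_of_nonneg_left (Finset.single_le_sum ha hp) (ha p hp)

/-- the squares of the weights of the letters -/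
theorem letters_sq (A : ℕ) (S : Finset ℕ) (f : ℕ → Fin 4) :
    ∑ p ∈ S, wt A p ^ 2 ≤ ∑ i : Fin 4, (∑ p ∈ S.filter (fun p => f p = i), wt A p) ^ 2 := by
  rw [← Finset.sum_fiberwise S f (fun p => wt A p ^ 2)]
  apply Finset.sum_le_sum
  intro i _
  exact sum_sq_le _ _ (fun p _ => wt_nonneg A p)

theorem si_eq {v w : ℕ × ℕ} (h : 2 * v.2 ≤ v.1 ↔ 2 * w.2 ≤ w.1) : si v = si w := by
  unfold si
  by_cases h1 : 2 * v.2 ≤ v.1
  · rw [if_pos h1, if_pos (h.mp h1)]
  · rw [if_neg h1, if_neg (fun h2 => h1 (h.mpr h2))]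

/-- at most `10 / ε` triangles of one class -/
theorem class_bound {A g : ℕ} (hA : 2 ≤ A) (hg : g ∣ A) (hc : Nat.Coprime g (A / g)) (ε : ℝ)
    (hε : 0 < ε)
    (hgA : (1 / 2 + ε) * Real.log A ≤
      Real.log g + Real.sqrt (∑ p ∈ g.primeFactors, wt A p ^ 2))
    (hG25 : Real.log g ≤ 2 / 5 * Real.log A) (hL : 100 ≤ ε * Real.log A)
    (V : Finset (ℕ × ℕ)) (hV : ∀ v ∈ V, Gen A v)
    (hT : ∀ v ∈ V, ∀ w ∈ V, (2 * v.2 ≤ v.1 ↔ 2 * w.2 ≤ w.1))
    (hs : ∀ v ∈ V, ∀ w ∈ V, Real.log (small v) ≤ Real.log (small w) + ε * Real.log A / 40)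
    (hl : ∀ v ∈ V, ∀ w ∈ V, ∀ p ∈ g.primeFactors, letter v p = letter w p) :
    (V.card : ℝ) ≤ 10 / ε := by
  rcases V.eq_empty_or_nonempty with rfl | ⟨v0, hv0⟩
  · rw [Finset.card_empty]
    push_cast
    positivity
  have hA0 : 0 < A := by omega
  set L : ℝ := Real.log A with hLdef
  have hL0 : 0 < L := Real.log_pos (by exact_mod_cast hA)
  set G : ℝ := Real.log g with hGdef
  have hG0 : 0 ≤ G := Real.log_natCast_nonneg g
  set K : ℝ := (V.card : ℝ) with hK
  have hK0 : 0 < K := by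
    rw [hK]
    exact_mod_cast Finset.card_pos.mpr ⟨v0, hv0⟩
  set s : Fin 4 := si v0 with hsdef
  set gg : Fin 4 → ℝ := fun i =>
    ∑ p ∈ g.primeFactors.filter (fun p => letter v0 p = i), wt A p with hgg
  set X : Fin 4 → ℝ := fun i => ∑ v ∈ V, Real.log (part v i) with hX
  set x : Fin 4 → ℝ := fun i => X i / K with hx
  have hXK : ∀ i, X i = K * x i := by
    intro i
    simp only [hx]
    field_simp
  have hsi : ∀ v ∈ V, part v s = small v := by
    intro v hv
    rw [hsdef, ← si_eq (hT v hv v0 hv0)]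
    exact part_si v
  have hxs : K * x s = ∑ v ∈ V, Real.log (small v) := by
    rw [← hXK, hX]
    exact Finset.sum_congr rfl (fun v hv => by rw [hsi v hv])
  -- the averages
  have hsumx : ∑ i, x i = L := by
    have h1 : ∑ i, X i = K * L := by
      rw [hX, Finset.sum_comm, Finset.sum_congr rfl (fun v hv => log_parts (hV v hv)),
        Finset.sum_const, nsmul_eq_mul]
    have h2 : K * ∑ i, x i = K * L := by
      rw [← h1, Finset.mul_sum]
      exact Finset.sum_congr rfl (fun i _ => (hXK i).symm)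
    exact mul_left_cancel₀ hK0.ne' h2
  have hsumg : ∑ i, gg i = G := by
    rw [hGdef, ← sum_wt_unitary hA0 hg hc]
    exact Finset.sum_fiberwise g.primeFactors (fun p => letter v0 p) (fun p => wt A p)
  have hgg0 : ∀ i, 0 ≤ gg i := fun i => Finset.sum_nonneg (fun p _ => wt_nonneg A p)
  have hd : ∀ i, i ≠ s → |x i - (L - x s) / 3| ≤ 2 := by
    intro i hi
    have h1 : ∀ v ∈ V, Real.log (part v i) - (L - Real.log (small v)) / 3 ≤ 2 ∧
        -2 ≤ Real.log (part v i) - (L - Real.log (small v)) / 3 := by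
      intro v hv
      have hne : i ≠ si v := by
        rw [si_eq (hT v hv v0 hv0)]
        exact hi
      have h2 := abs_le.mp (log_large (hV v hv) hne)
      exact ⟨h2.2, h2.1⟩
    have h3 : ∑ v ∈ V, (Real.log (part v i) - (L - Real.log (small v)) / 3) =
        K * (x i - (L - x s) / 3) := by
      rw [Finset.sum_sub_distrib, ← Finset.sum_div, Finset.sum_sub_distrib, ← hxs,
        Finset.sum_const, nsmul_eq_mul, ← hK]
      have h4 : ∑ v ∈ V, Real.log (part v i) = K * x i := hXK i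
      rw [h4]
      ring
    have h5 : K * (x i - (L - x s) / 3) ≤ K * 2 := by
      rw [← h3]
      calc _ ≤ ∑ v ∈ V, (2 : ℝ) := Finset.sum_le_sum (fun v hv => (h1 v hv).1)
        _ = K * 2 := by rw [Finset.sum_const, nsmul_eq_mul]
    have h6 : K * (-2) ≤ K * (x i - (L - x s) / 3) := by
      rw [← h3]
      calc K * (-2) = ∑ v ∈ V, (-2 : ℝ) := by rw [Finset.sum_const, nsmul_eq_mul]
        _ ≤ _ := Finset.sum_le_sum (fun v hv => (h1 v hv).2)
    rw [abs_le]
    exact ⟨le_of_mul_le_mul_left h6 hK0, le_of_mul_le_mul_left h5 hK0⟩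
  have hs4 : 4 * x s ≤ L := by
    have h1 : K * (4 * x s) ≤ K * L := by
      have h2 : K * (4 * x s) = ∑ v ∈ V, 4 * Real.log (small v) := by
        rw [← Finset.mul_sum, ← hxs]
        ring
      rw [h2]
      calc _ ≤ ∑ v ∈ V, L := Finset.sum_le_sum (fun v hv => (log_small_le (hV v hv)).2)
        _ = K * L := by rw [Finset.sum_const, nsmul_eq_mul]
    exact le_of_mul_le_mul_left h1 hK0
  have hxs0 : 0 ≤ x s := by
    have h1 : 0 ≤ K * x s := by
      rw [hxs]
      exact Finset.sum_nonneg (fun v hv => (log_small_le (hV v hv)).1)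
    exact nonneg_of_mul_nonneg_right h1 hK0
  have hsq : ((1 / 2 + ε) * L - G) ^ 2 ≤ ∑ i, gg i ^ 2 := by
    have h1 : 0 ≤ (1 / 2 + ε) * L - G := by
      have := mul_pos hε hL0
      linarith
    have h2 : (1 / 2 + ε) * L - G ≤ Real.sqrt (∑ p ∈ g.primeFactors, wt A p ^ 2) := by linarith
    have h3 := pow_le_pow_left₀ h1 h2 2
    rw [Real.sq_sqrt (Finset.sum_nonneg (fun p _ => sq_nonneg _))] at h3
    exact h3.trans (letters_sq A g.primeFactors (fun p => letter v0 p))
  have hreal := real_ineq ε L G x gg s hε hsumx hsumg hgg0 hd hs4 hsq hG25 hL hL0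
  -- the determinants
  set D : ℝ := (L + 2 * x s) / 3 + 2 * (ε * L / 40) + 1 with hD
  have hεL : 0 < ε * L := mul_pos hε hL0
  have hD0 : 0 ≤ D := by
    rw [hD]
    linarith
  have hdet : ∀ v ∈ V, ∀ w ∈ V, v ≠ w → Real.log |((det v w : ℤ) : ℝ)| ≤ D := by
    intro v hv w hw hne
    have h1 := log_det_thin (hV v hv) (hV w hw) hne (hT v hv w hw) (ε * L / 40)
      (by linarith) (hs v hv w hw) (hs w hw v hv)
    have h2 : Real.log (small v) ≤ x s + ε * L / 40 := by
      have h3 : K * Real.log (small v) ≤ K * (x s + ε * L / 40) := by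
        calc K * Real.log (small v) = ∑ w ∈ V, Real.log (small v) := by
              rw [Finset.sum_const, nsmul_eq_mul]
          _ ≤ ∑ w ∈ V, (Real.log (small w) + ε * L / 40) :=
              Finset.sum_le_sum (fun w hw => hs v hv w hw)
          _ = K * (x s + ε * L / 40) := by
              rw [Finset.sum_add_distrib, ← hxs, Finset.sum_const, nsmul_eq_mul]
              ring
      exact le_of_mul_le_mul_left h3 hK0
    rw [hD]
    linarith
  have hpl := plotkin_parts hA0 hg hc V hV v0 hv0 hl D hD0 hdet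
  have h1 : ∑ i : Fin 4, (X i - K * gg i) ^ 2 = K ^ 2 * ∑ i : Fin 4, (x i - gg i) ^ 2 := by
    rw [Finset.mul_sum]
    apply Finset.sum_congr rfl
    intro i _
    rw [hXK i]
    ring
  have h2 : ∑ i : Fin 4, (X i - K * gg i) ^ 2 ≤ (L - G) * (K * L + K ^ 2 * (D - G)) := hpl
  rw [h1] at h2
  have h3 : K ^ 2 * (ε * L ^ 2 / 10) ≤ K * L ^ 2 := by
    have h4 := mul_le_mul_of_nonneg_left hreal (sq_nonneg K)
    have h5 : 0 ≤ G * (K * L) := mul_nonneg hG0 (mul_nonneg hK0.le hL0.le)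
    calc K ^ 2 * (ε * L ^ 2 / 10) ≤
        K ^ 2 * (∑ i : Fin 4, (x i - gg i) ^ 2 - (L - G) * (D - G)) := h4
      _ = K ^ 2 * ∑ i : Fin 4, (x i - gg i) ^ 2 - K ^ 2 * ((L - G) * (D - G)) := by ring
      _ ≤ (L - G) * (K * L + K ^ 2 * (D - G)) - K ^ 2 * ((L - G) * (D - G)) := by linarith
      _ = K * L ^ 2 - G * (K * L) := by ring
      _ ≤ K * L ^ 2 := by linarith
  have h6 : (K * L ^ 2) * (K * ε) ≤ (K * L ^ 2) * 10 := by
    calc (K * L ^ 2) * (K * ε) = 10 * (K ^ 2 * (ε * L ^ 2 / 10)) := by ring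
      _ ≤ 10 * (K * L ^ 2) := by linarith
      _ = (K * L ^ 2) * 10 := by ring
  have h7 : K * ε ≤ 10 := le_of_mul_le_mul_left h6 (mul_pos hK0 (pow_pos hL0 2))
  rw [le_div_iff₀ hε]
  exact h7

end Pool.Agent.H83.LP
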