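import Pool.Agent.H83.LP.Class
import Pool.Agent.H99.PT.Main

/-!
The number of primitive Pythagorean triangles of an area with a large prime power.
-/

namespace Pool.Agent.H83.LP

open Pool.Agent.H99.PT Finset

theorem fac_unitary {A g : ℕ} (hA : 0 < A) (hg : g ∣ A) (hc : Nat.Coprime g (A / g)) {p : ℕ}
    (hp : p ∈ g.primeFactors) : A.factorization p = g.factorization p := by
  have hg0 : 0 < g := Nat.pos_of_dvd_of_pos hg hA
  have h1 : A = g * (A / g) := (Nat.mul_div_cancel' hg).symm
  have h2 : A / g ≠ 0 := by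
    intro h
    rw [h, mul_zero] at h1
    omega
  have h3 : (A / g).factorization p = 0 := by
    apply Nat.factorization_eq_zero_of_not_dvd
    intro h
    have h4 := (Nat.prime_of_mem_primeFactors hp)
    have h5 := Nat.dvd_gcd (Nat.dvd_of_mem_primeFactors hp) h
    rw [hc] at h5
    exact h4.one_lt.ne' (Nat.dvd_one.mp h5)
  conv_lhs => rw [h1]
  rw [Nat.factorization_mul hg0.ne' h2, Finsupp.add_apply, h3, add_zero]

/-- the case of a divisor `g` of at most the size `A ^ (2/5)` -/
theorem main_small (A g : ℕ) (ε : ℝ) (hε : 0 < ε) (hA : 2 ≤ A) (hg : g ∣ A)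
    (hc : Nat.Coprime g (A / g))
    (hgA : (1 / 2 + ε) * Real.log A ≤
      Real.log g + Real.sqrt (∑ p ∈ g.primeFactors, wt A p ^ 2))
    (hG25 : Real.log g ≤ 2 / 5 * Real.log A) (hL : 100 ≤ ε * Real.log A) :
    ({v : ℕ × ℕ | Gen A v}.ncard : ℝ) ≤ 10 / ε * (2 * ((10 / ε + 1) * 4 ^ g.primeFactors.card)) := by
  classical
  have hA0 : 0 < A := by omega
  have hA1 : (1 : ℝ) < A := by exact_mod_cast hA
  have hlA : 0 < Real.log A := Real.log_pos hA1
  set V : Finset (ℕ × ℕ) := (gen_finite A).toFinset with hV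
  have hVm : ∀ v, v ∈ V ↔ Gen A v := by
    intro v
    rw [hV, Set.Finite.mem_toFinset]
    rfl
  rw [Set.ncard_eq_toFinset_card _ (gen_finite A), ← hV]
  set η : ℝ := ε * Real.log A / 40 with hη
  have hη0 : 0 < η := by positivity
  let key : ℕ × ℕ → Bool × ℕ × (g.primeFactors → Fin 4) := fun v =>
    (decide (2 * v.2 ≤ v.1), ⌊Real.log (small v) / η⌋₊, fun p => letter v p)
  have hlog0 : ∀ v, 0 ≤ Real.log (small v) / η := by
    intro v
    apply div_nonneg _ hη0.le
    exact Real.log_natCast_nonneg _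
  -- number of keys
  have himg : (V.image key).card ≤ 2 * ((⌊10 / ε⌋₊ + 1) * 4 ^ g.primeFactors.card) := by
    have h1 : V.image key ⊆ (Finset.univ : Finset Bool) ×ˢ
        ((range (⌊10 / ε⌋₊ + 1)) ×ˢ (Finset.univ : Finset (g.primeFactors → Fin 4))) := by
      intro a ha
      rw [Finset.mem_image] at ha
      obtain ⟨v, hv, rfl⟩ := ha
      rw [Finset.mem_product, Finset.mem_product]
      refine ⟨Finset.mem_univ _, ?_, Finset.mem_univ _⟩
      rw [Finset.mem_range, Nat.lt_succ_iff]
      apply Nat.floor_mono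
      have hv' := (hVm v).mp hv
      have h3 := (log_small_le hv').2
      rw [div_le_div_iff₀ hη0 hε, hη]
      have h4 := mul_le_mul_of_nonneg_left h3 hε.le
      linarith
    have h4 := Finset.card_le_card h1
    rw [Finset.card_product, Finset.card_product, Finset.card_univ, Fintype.card_bool,
      Finset.card_range, Finset.card_univ, Fintype.card_fun, Fintype.card_fin,
      Fintype.card_coe] at h4
    exact h4
  -- the fibres
  have hfib : ∀ a ∈ V.image key, (V.filter (fun v => key v = a)).card ≤ ⌊10 / ε⌋₊ := by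
    intro a _
    apply Nat.le_floor
    apply class_bound hA hg hc ε hε hgA hG25 hL
    · intro v hv
      rw [Finset.mem_filter] at hv
      exact (hVm v).mp hv.1
    · intro v hv w hw
      rw [Finset.mem_filter] at hv hw
      have h1 : key v = key w := hv.2.trans hw.2.symm
      have h2 : decide (2 * v.2 ≤ v.1) = decide (2 * w.2 ≤ w.1) := congrArg Prod.fst h1
      exact decide_eq_decide.mp h2
    · intro v hv w hw
      rw [Finset.mem_filter] at hv hw
      have h1 : key v = key w := hv.2.trans hw.2.symm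
      have h2 : ⌊Real.log (small v) / η⌋₊ = ⌊Real.log (small w) / η⌋₊ :=
        congrArg (fun x => x.2.1) h1
      have h3 := Nat.lt_floor_add_one (Real.log (small v) / η)
      have h4 := Nat.floor_le (hlog0 w)
      rw [h2] at h3
      have h5 : Real.log (small v) / η ≤ Real.log (small w) / η + 1 := by linarith
      rw [div_le_iff₀ hη0, add_mul, div_mul_cancel₀ _ hη0.ne', one_mul] at h5
      exact h5
    · intro v hv w hw p hp
      rw [Finset.mem_filter] at hv hw
      have h1 : key v = key w := hv.2.trans hw.2.symm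
      have h2 : (fun p : g.primeFactors => letter v p) = fun p : g.primeFactors => letter w p :=
        congrArg (fun x => x.2.2) h1
      exact congrFun h2 ⟨p, hp⟩
  have h1 := Finset.card_le_mul_card_image V ⌊10 / ε⌋₊ hfib
  have h2 : (V.card : ℝ) ≤ (⌊10 / ε⌋₊ : ℝ) * ((V.image key).card : ℝ) := by exact_mod_cast h1
  have h3 : ((V.image key).card : ℝ) ≤ 2 * ((10 / ε + 1) * 4 ^ g.primeFactors.card) := by
    have h4 : ((V.image key).card : ℝ) ≤
        ((2 * ((⌊10 / ε⌋₊ + 1) * 4 ^ g.primeFactors.card) : ℕ) : ℝ) := by exact_mod_cast himg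
    push_cast at h4
    refine h4.trans ?_
    have h5 := Nat.floor_le (show 0 ≤ 10 / ε by positivity)
    gcongr
  have h6 := Nat.floor_le (show 0 ≤ 10 / ε by positivity)
  exact h2.trans (mul_le_mul h6 h3 (by positivity) (by positivity))

theorem main_lp (A g : ℕ) (ε : ℝ) (hε : 0 < ε) (hA : Real.exp (100 / ε) ≤ A) (hg : g ∣ A)
    (hc : Nat.Coprime g (A / g))
    (hgA : (1 / 2 + ε) * Real.log A ≤
      Real.log g + Real.sqrt (∑ p ∈ g.primeFactors, Real.log ((p : ℝ) ^ g.factorization p) ^ 2)) :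
    ({v : ℕ × ℕ | Gen A v}.ncard : ℝ) ≤ 4000 / ε ^ 2 * 4 ^ g.primeFactors.card := by
  have hApos : (0 : ℝ) < A := lt_of_lt_of_le (Real.exp_pos _) hA
  have hlog : 100 / ε ≤ Real.log A := by
    rw [Real.le_log_iff_exp_le hApos]
    exact hA
  have hL : 100 ≤ ε * Real.log A := by
    rw [div_le_iff₀ hε] at hlog
    linarith
  have hlA : 0 < Real.log A := lt_of_lt_of_le (by positivity) hlog
  have hA0 : 0 < A := by exact_mod_cast hApos
  have hA2 : 2 ≤ A := by
    rcases Nat.lt_or_ge A 2 with h | h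
    · interval_cases A
      · simp at hlA
    · exact h
  have hg0 : 0 < g := Nat.pos_of_dvd_of_pos hg hA0
  have hGL : Real.log g ≤ Real.log A :=
    Real.log_le_log (by exact_mod_cast hg0) (by exact_mod_cast Nat.le_of_dvd hA0 hg)
  have hG0 : 0 ≤ Real.log g := Real.log_natCast_nonneg g
  have hwt : ∑ p ∈ g.primeFactors, Real.log ((p : ℝ) ^ g.factorization p) ^ 2 =
      ∑ p ∈ g.primeFactors, wt A p ^ 2 := by
    apply Finset.sum_congr rfl
    intro p hp
    rw [Real.log_pow, ← fac_unitary hA0 hg hc hp]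
    rfl
  rw [hwt] at hgA
  have hS : Real.sqrt (∑ p ∈ g.primeFactors, wt A p ^ 2) ≤ Real.log g := by
    rw [Real.sqrt_le_left hG0, ← sum_wt_unitary hA0 hg hc]
    exact sum_sq_le _ _ (fun p _ => wt_nonneg A p)
  have hε2 : ε ≤ 3 / 2 := by
    have h2 : (1 / 2 + ε) * Real.log A ≤ 2 * Real.log A := by linarith
    have := le_of_mul_le_mul_right h2 hlA
    linarith
  have h4 : (0 : ℝ) < 4 ^ g.primeFactors.card := by positivity
  rcases le_or_gt (Real.log g) (2 / 5 * Real.log A) with h | h
  · refine (main_small A g ε hε hA2 hg hc hgA h hL).trans ?_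
    have e1 : 10 / ε * (2 * ((10 / ε + 1) * 4 ^ g.primeFactors.card)) =
        (200 + 20 * ε) / ε ^ 2 * (4 : ℝ) ^ g.primeFactors.card := by
      field_simp
      ring
    rw [e1]
    apply mul_le_mul_of_nonneg_right _ h4.le
    apply div_le_div_of_nonneg_right _ (by positivity)
    linarith
  · have h5 : (A : ℝ) ^ (1 / 3 + 1 / 15 : ℝ) ≤ g := by
      have h6 : ((A : ℝ) ^ (1 / 3 + 1 / 15 : ℝ)) = Real.exp (2 / 5 * Real.log A) := by
        rw [Real.rpow_def_of_pos hApos]
        congr 1
        ring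
      rw [h6]
      calc Real.exp (2 / 5 * Real.log A) ≤ Real.exp (Real.log g) := Real.exp_le_exp.mpr h.le
        _ = g := Real.exp_log (by exact_mod_cast hg0)
    refine (main A g (1 / 15) (by norm_num) hg hc h5).trans ?_
    apply mul_le_mul_of_nonneg_right _ h4.le
    rw [le_div_iff₀ (by positivity)]
    nlinarith

/-- a trivial bound -/
theorem trivial_bound (A : ℕ) : {v : ℕ × ℕ | Gen A v}.ncard ≤ (A + 1) * (A + 1) := by
  have h : {v : ℕ × ℕ | Gen A v} ⊆
      (((range (A + 1)) ×ˢ (range (A + 1)) : Finset (ℕ × ℕ)) : Set (ℕ × ℕ)) := by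
    intro v hv
    have h1 := prod_parts hv
    have h0 := area_pos hv
    have h2 : v.1 ∣ A := by
      rw [← h1]
      exact ⟨part v 1 * part v 2 * part v 3, by simp [part]; ring⟩
    have h3 := Nat.le_of_dvd h0 h2
    have h4 := hv.2.1
    rw [Finset.mem_coe, Finset.mem_product, Finset.mem_range, Finset.mem_range]
    omega
  have h1 := Set.ncard_le_ncard h (Finset.finite_toSet _)
  rw [Set.ncard_coe_finset, Finset.card_product, Finset.card_range] at h1
  exact h1

/-- a prime power `q` exactly dividing `A`, `q ≥ A ^ (1/4 + ε)` -/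
theorem prime_power (ε : ℝ) (hε : 0 < ε) : ∃ C : ℕ, ∀ A q : ℕ, 0 < A → IsPrimePow q → q ∣ A →
    Nat.Coprime q (A / q) → (A : ℝ) ^ (1 / 4 + ε) ≤ q → {v : ℕ × ℕ | Gen A v}.ncard ≤ C := by
  have hε2 : 0 < 2 * ε := by linarith
  refine ⟨⌊4000 / (2 * ε) ^ 2 * 4⌋₊ + (⌊Real.exp (100 / (2 * ε))⌋₊ + 1) *
    (⌊Real.exp (100 / (2 * ε))⌋₊ + 1), ?_⟩
  intro A q hA hq hqA hc hqq
  rcases le_or_gt (Real.exp (100 / (2 * ε))) A with h | h
  · have hApos : (0 : ℝ) < A := by exact_mod_cast hA
    have hq0 : 0 < q := hq.pos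
    have h1 : (1 / 4 + ε) * Real.log A ≤ Real.log q := by
      have := Real.log_le_log (by positivity) hqq
      rwa [Real.log_rpow (by positivity)] at this
    obtain ⟨p, k, hp, hk, rfl⟩ := (isPrimePow_nat_iff q).mp hq
    have hpf : (p ^ k).primeFactors = {p} := by
      rw [Nat.primeFactors_pow p hk.ne', hp.primeFactors]
    have h2 : ∑ r ∈ (p ^ k).primeFactors,
        Real.log ((r : ℝ) ^ (p ^ k).factorization r) ^ 2 = Real.log ((p ^ k : ℕ) : ℝ) ^ 2 := by
      rw [hpf, Finset.sum_singleton, hp.factorization_pow, Finsupp.single_eq_same]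
      push_cast
      rfl
    have h3 : 0 ≤ Real.log ((p ^ k : ℕ) : ℝ) := Real.log_natCast_nonneg _
    have h4 := main_lp A (p ^ k) (2 * ε) hε2 h hqA hc (by
      rw [h2, Real.sqrt_sq h3]
      linarith)
    rw [hpf, Finset.card_singleton, pow_one] at h4
    have h5 := Nat.le_floor h4
    omega
  · have h1 := trivial_bound A
    have h2 : A ≤ ⌊Real.exp (100 / (2 * ε))⌋₊ := Nat.le_floor h.le
    have h3 : (A + 1) * (A + 1) ≤ (⌊Real.exp (100 / (2 * ε))⌋₊ + 1) *
        (⌊Real.exp (100 / (2 * ε))⌋₊ + 1) := Nat.mul_le_mul (by omega) (by omega)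
    omega

end Pool.Agent.H83.LP
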