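import Pool.Agent.H83.LP.Size

/-!
Plotkin's bound with the weights of the four letters.
-/

namespace Pool.Agent.H83.LP

open Pool.Agent.H99.PT Finset

/-- Cauchy-Schwarz with weights -/
theorem cs_wt {ι : Type*} (R : Finset ι) (a w : ι → ℝ) (hw : ∀ p ∈ R, 0 ≤ w p) :
    (∑ p ∈ R, a p * w p) ^ 2 ≤ (∑ p ∈ R, w p) * ∑ p ∈ R, a p ^ 2 * w p := by
  have h := Finset.sum_mul_sq_le_sq_mul_sq R (fun p => Real.sqrt (w p))
    (fun p => a p * Real.sqrt (w p))
  have e1 : ∑ p ∈ R, Real.sqrt (w p) * (a p * Real.sqrt (w p)) = ∑ p ∈ R, a p * w p :=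
    Finset.sum_congr rfl (fun p hp => by
      rw [mul_left_comm, Real.mul_self_sqrt (hw p hp)])
  have e2 : ∑ p ∈ R, Real.sqrt (w p) ^ 2 = ∑ p ∈ R, w p :=
    Finset.sum_congr rfl (fun p hp => Real.sq_sqrt (hw p hp))
  have e3 : ∑ p ∈ R, (a p * Real.sqrt (w p)) ^ 2 = ∑ p ∈ R, a p ^ 2 * w p :=
    Finset.sum_congr rfl (fun p hp => by rw [mul_pow, Real.sq_sqrt (hw p hp)])
  rw [e1, e2, e3] at h
  exact h

theorem pairs_eq (V : Finset (ℕ × ℕ)) (f : ℕ × ℕ → Fin 4) :
    ∑ v ∈ V, ∑ w ∈ V, (if f v = f w then (1 : ℝ) else 0) =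
      ∑ i : Fin 4, ((V.filter (fun v => f v = i)).card : ℝ) ^ 2 := by
  have h2 : ∀ v ∈ V, ∑ w ∈ V, (if f v = f w then (1 : ℝ) else 0) =
      ∑ i : Fin 4, (if f v = i then ((V.filter (fun w => f w = i)).card : ℝ) else 0) := by
    intro v _
    rw [Finset.sum_ite_eq]
    simp only [Finset.mem_univ, if_true]
    rw [Finset.card_filter]
    push_cast
    apply Finset.sum_congr rfl
    intro w _
    by_cases h : f v = f w
    · rw [if_pos h, if_pos h.symm]
    · rw [if_neg h, if_neg (fun h' => h h'.symm)]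
  rw [Finset.sum_congr rfl h2, Finset.sum_comm]
  apply Finset.sum_congr rfl
  intro i _
  rw [← Finset.sum_filter, Finset.sum_const, nsmul_eq_mul, sq]

theorem plotkin_parts {A g : ℕ} (hA : 0 < A) (hg : g ∣ A) (hc : Nat.Coprime g (A / g))
    (V : Finset (ℕ × ℕ)) (hV : ∀ v ∈ V, Gen A v) (v0 : ℕ × ℕ) (hv0 : v0 ∈ V)
    (hl : ∀ v ∈ V, ∀ w ∈ V, ∀ p ∈ g.primeFactors, letter v p = letter w p)
    (D : ℝ) (hD0 : 0 ≤ D)
    (hD : ∀ v ∈ V, ∀ w ∈ V, v ≠ w → Real.log |((det v w : ℤ) : ℝ)| ≤ D) :
    ∑ i : Fin 4, (∑ v ∈ V, Real.log (part v i) -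
        V.card * ∑ p ∈ g.primeFactors.filter (fun p => letter v0 p = i), wt A p) ^ 2 ≤
      (Real.log A - Real.log g) *
        (V.card * Real.log A + V.card ^ 2 * (D - Real.log g)) := by
  have hgp : g.primeFactors ⊆ A.primeFactors := Nat.primeFactors_mono hg hA.ne'
  set K : ℝ := (V.card : ℝ) with hK
  set R := A.primeFactors \ g.primeFactors with hR
  have hRw : ∑ p ∈ R, wt A p = Real.log A - Real.log g := by
    have h7 := Finset.sum_sdiff hgp (f := fun p => wt A p)
    rw [sum_wt hA, sum_wt_unitary hA hg hc] at h7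
    linarith
  -- step 1
  have h1 : ∀ i : Fin 4, ∑ v ∈ V, Real.log (part v i) -
      K * ∑ p ∈ g.primeFactors.filter (fun p => letter v0 p = i), wt A p =
      ∑ p ∈ R, ((V.filter (fun v => letter v p = i)).card : ℝ) * wt A p := by
    intro i
    have h2 : ∀ v ∈ V, Real.log (part v i) =
        ∑ p ∈ R, (if letter v p = i then (1 : ℝ) else 0) * wt A p +
        ∑ p ∈ g.primeFactors.filter (fun p => letter v0 p = i), wt A p := by
      intro v hv
      rw [← sum_letter (hV v hv) i, Finset.sum_filter, ← Finset.sum_sdiff hgp, ← hR,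
        Finset.sum_filter]
      congr 1
      · apply Finset.sum_congr rfl
        intro p _
        split_ifs <;> simp
      · apply Finset.sum_congr rfl
        intro p hp
        rw [hl v hv v0 hv0 p hp]
    rw [Finset.sum_congr rfl h2, Finset.sum_add_distrib, Finset.sum_const, nsmul_eq_mul, ← hK,
      add_sub_cancel_right, Finset.sum_comm]
    apply Finset.sum_congr rfl
    intro p _
    rw [← Finset.sum_mul, Finset.card_filter]
    push_cast
    rfl
  -- step 2
  have h3 : ∑ i : Fin 4, (∑ v ∈ V, Real.log (part v i) -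
      K * ∑ p ∈ g.primeFactors.filter (fun p => letter v0 p = i), wt A p) ^ 2 ≤
      (Real.log A - Real.log g) * ∑ i : Fin 4, ∑ p ∈ R,
        ((V.filter (fun v => letter v p = i)).card : ℝ) ^ 2 * wt A p := by
    rw [Finset.mul_sum]
    apply Finset.sum_le_sum
    intro i _
    rw [h1 i, ← hRw]
    exact cs_wt R _ _ (fun p _ => wt_nonneg A p)
  refine h3.trans ?_
  have hLG : 0 ≤ Real.log A - Real.log g := by
    rw [← hRw]
    exact Finset.sum_nonneg (fun p _ => wt_nonneg A p)
  apply mul_le_mul_of_nonneg_left _ hLG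
  have h4 : ∑ i : Fin 4, ∑ p ∈ R, ((V.filter (fun v => letter v p = i)).card : ℝ) ^ 2 * wt A p =
      ∑ v ∈ V, ∑ w ∈ V, ∑ p ∈ R, (if letter v p = letter w p then (1 : ℝ) else 0) * wt A p := by
    have h5 : ∀ v ∈ V, ∑ w ∈ V, ∑ p ∈ R,
        (if letter v p = letter w p then (1 : ℝ) else 0) * wt A p =
        ∑ p ∈ R, (∑ w ∈ V, (if letter v p = letter w p then (1 : ℝ) else 0)) * wt A p := by
      intro v _
      rw [Finset.sum_comm]
      apply Finset.sum_congr rfl
      intro p _
      rw [Finset.sum_mul]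
    rw [Finset.sum_congr rfl h5, Finset.sum_comm, Finset.sum_comm (s := V)]
    apply Finset.sum_congr rfl
    intro p _
    rw [← Finset.sum_mul, ← Finset.sum_mul, pairs_eq V (fun v => letter v p)]
  rw [h4]
  have h6 : ∀ v ∈ V, ∀ w ∈ V,
      ∑ p ∈ R, (if letter v p = letter w p then (1 : ℝ) else 0) * wt A p ≤
        (if v = w then Real.log A else 0) + (D - Real.log g) := by
    intro v hv w hw
    have h7 : ∑ p ∈ R, (if letter v p = letter w p then (1 : ℝ) else 0) * wt A p + Real.log g =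
        ∑ p ∈ A.primeFactors.filter (fun p => letter v p = letter w p), wt A p := by
      rw [← sum_wt_unitary hA hg hc, Finset.sum_filter, ← Finset.sum_sdiff hgp, ← hR]
      congr 1
      · apply Finset.sum_congr rfl
        intro p _
        split_ifs <;> simp
      · apply Finset.sum_congr rfl
        intro p hp
        rw [if_pos (hl v hv w hw p hp)]
    by_cases h : v = w
    · rw [if_pos h]
      have h2 : ∑ p ∈ A.primeFactors.filter (fun p => letter v p = letter w p), wt A p ≤
          ∑ p ∈ A.primeFactors, wt A p :=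
        Finset.sum_le_sum_of_subset_of_nonneg (Finset.filter_subset _ _)
          (fun p _ _ => wt_nonneg A p)
      rw [sum_wt hA] at h2
      linarith
    · rw [if_neg h]
      have h2 := agree_le (hV v hv) (hV w hw) h
      have h8 := hD v hv w hw h
      linarith
  calc _ ≤ ∑ v ∈ V, ∑ w ∈ V, ((if v = w then Real.log A else 0) + (D - Real.log g)) :=
        Finset.sum_le_sum fun v hv => Finset.sum_le_sum fun w hw => h6 v hv w hw
    _ = K * Real.log A + K ^ 2 * (D - Real.log g) := by
        have h2 : ∀ v ∈ V, ∑ w ∈ V,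
            ((if v = w then Real.log A else 0) + (D - Real.log g)) =
            Real.log A + K * (D - Real.log g) := by
          intro v hv
          rw [Finset.sum_add_distrib, Finset.sum_ite_eq, if_pos hv, Finset.sum_const,
            nsmul_eq_mul]
        rw [Finset.sum_congr rfl h2, Finset.sum_const, nsmul_eq_mul]
        ring

end Pool.Agent.H83.LP
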