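import Pool.Agent.H99.PT.Code

/-!
Sizes of the four parts of a primitive Pythagorean triangle of area `A`, in logarithms.
-/

namespace Pool.Agent.H83.LP

open Pool.Agent.H99.PT Finset

/-- the weight of a letter in the word of `v` -/
theorem sum_letter_le {A : ℕ} {v : ℕ × ℕ} (hv : Gen A v) (i : Fin 4) :
    ∑ p ∈ A.primeFactors.filter (fun p => letter v p = i), wt A p ≤
      Real.log (part v i) := by
  set S := A.primeFactors.filter (fun p => letter v p = i) with hS
  have hpr : ∀ p ∈ S, p.Prime ∧ p ∣ A := by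
    intro p hp
    rw [hS, Finset.mem_filter] at hp
    exact ⟨Nat.prime_of_mem_primeFactors hp.1, Nat.dvd_of_mem_primeFactors hp.1⟩
  have h1 : (∏ p ∈ S, ((p ^ A.factorization p : ℕ) : ℤ)) ∣ (part v i : ℤ) := by
    apply Finset.prod_dvd_of_coprime
    · intro p hp q hq hpq
      have := (Nat.coprime_primes (hpr p hp).1 (hpr q hq).1).mpr hpq
      exact Nat.isCoprime_iff_coprime.mpr (Nat.Coprime.pow _ _ this)
    · intro p hp
      have h2 := letter_pow hv (hpr p hp).1 (hpr p hp).2
      rw [hS, Finset.mem_filter] at hp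
      rw [hp.2] at h2
      exact_mod_cast h2
  have h4 : (∏ p ∈ S, ((p ^ A.factorization p : ℕ) : ℤ)) ≤ (part v i : ℤ) := by
    apply Int.le_of_dvd _ h1
    exact_mod_cast part_pos hv i
  have h5 : (∏ p ∈ S, ((p : ℝ) ^ A.factorization p)) ≤ (part v i : ℝ) := by
    have : (((∏ p ∈ S, ((p ^ A.factorization p : ℕ) : ℤ)) : ℤ) : ℝ) ≤ (((part v i : ℕ) : ℤ) : ℝ) := by
      exact_mod_cast h4
    push_cast at this
    exact this
  have h6 : ∑ p ∈ S, wt A p = Real.log (∏ p ∈ S, ((p : ℝ) ^ A.factorization p)) := by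
    rw [Real.log_prod]
    · apply Finset.sum_congr rfl
      intro p _
      rw [Real.log_pow]
      rfl
    · intro p hp
      have := (hpr p hp).1.pos
      positivity
  rw [h6]
  apply Real.log_le_log _ h5
  apply Finset.prod_pos
  intro p hp
  have := (hpr p hp).1.pos
  positivity

theorem log_parts {A : ℕ} {v : ℕ × ℕ} (hv : Gen A v) :
    ∑ i : Fin 4, Real.log (part v i) = Real.log A := by
  have h := prod_parts hv
  have h0 : ∀ i, (0 : ℝ) < part v i := fun i => by exact_mod_cast part_pos hv i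
  rw [Fin.sum_univ_four, ← Real.log_mul (h0 0).ne' (h0 1).ne',
    ← Real.log_mul (mul_pos (h0 0) (h0 1)).ne' (h0 2).ne',
    ← Real.log_mul (mul_pos (mul_pos (h0 0) (h0 1)) (h0 2)).ne' (h0 3).ne']
  congr 1
  exact_mod_cast h

theorem sum_letter {A : ℕ} {v : ℕ × ℕ} (hv : Gen A v) (i : Fin 4) :
    ∑ p ∈ A.primeFactors.filter (fun p => letter v p = i), wt A p =
      Real.log (part v i) := by
  have h1 : ∑ j : Fin 4, ∑ p ∈ A.primeFactors.filter (fun p => letter v p = j), wt A p =
      Real.log A := by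
    rw [← sum_wt (area_pos hv)]
    exact Finset.sum_fiberwise A.primeFactors (fun p => letter v p) (fun p => wt A p)
  have h2 := log_parts hv
  have h3 : ∀ j : Fin 4, 0 ≤ Real.log (part v j) -
      ∑ p ∈ A.primeFactors.filter (fun p => letter v p = j), wt A p := by
    intro j
    have := sum_letter_le hv j
    linarith
  have h4 : ∑ j : Fin 4, (Real.log (part v j) -
      ∑ p ∈ A.primeFactors.filter (fun p => letter v p = j), wt A p) = 0 := by
    rw [Finset.sum_sub_distrib, h1, h2, sub_self]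
  have h5 := (Finset.sum_eq_zero_iff_of_nonneg (fun j _ => h3 j)).mp h4 i (Finset.mem_univ i)
  linarith

/-- the index of the small part -/
def si (v : ℕ × ℕ) : Fin 4 := if 2 * v.2 ≤ v.1 then 1 else 2

theorem part_si (v : ℕ × ℕ) : part v (si v) = small v := by
  unfold si small
  split_ifs <;> simp [part]

theorem log_two_lt : Real.log 2 < 1 := by
  have := Real.log_two_lt_d9
  linarith

/-- a large part is comparable with `v.1` -/
theorem large_part {A : ℕ} {v : ℕ × ℕ} (hv : Gen A v) {i : Fin 4} (hi : i ≠ si v) :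
    v.1 ≤ 2 * part v i ∧ part v i ≤ 2 * v.1 := by
  obtain ⟨h1, h2, _⟩ := hv
  unfold si at hi
  split_ifs at hi with h
  · fin_cases i
    · simp [part]; omega
    · exact absurd rfl hi
    · simp [part]; omega
    · simp [part]; omega
  · fin_cases i
    · simp [part]; omega
    · simp [part]; omega
    · exact absurd rfl hi
    · simp [part]; omega

theorem area_bounds {A : ℕ} {v : ℕ × ℕ} (hv : Gen A v) :
    small v * v.1 ^ 3 ≤ 2 * A ∧ A ≤ 2 * (small v * v.1 ^ 3) := by
  obtain ⟨h1, h2, h3, h4, h5⟩ := hv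
  obtain ⟨m, n⟩ := v
  simp only [small] at *
  rw [Nat.sq_sub_sq] at h5
  rw [← h5]
  obtain ⟨d, rfl⟩ : ∃ d, m = n + d := ⟨m - n, by omega⟩
  rw [Nat.add_sub_cancel_left]
  split_ifs with h6
  · have h7 : n ≤ d := by omega
    obtain ⟨e, rfl⟩ := Nat.exists_eq_add_of_le h7
    constructor
    · nlinarith [Nat.zero_le (n * (n + (n + e)) * (n * n)), Nat.zero_le (n * (n + (n + e)) * (n * e)),
        Nat.zero_le (n * (n + (n + e)) * (e * e))]
    · nlinarith [Nat.zero_le (n * (n + (n + e)) * (n * n)), Nat.zero_le (n * (n + (n + e)) * (n * e)),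
        Nat.zero_le (n * (n + (n + e)) * (e * e))]
  · have h7 : d ≤ n := by omega
    obtain ⟨e, rfl⟩ := Nat.exists_eq_add_of_le h7
    constructor
    · nlinarith [Nat.zero_le (d * (d + e + d) * (d * d)), Nat.zero_le (d * (d + e + d) * (d * e)),
        Nat.zero_le (d * (d + e + d) * (e * e))]
    · nlinarith [Nat.zero_le (d * (d + e + d) * (d * d)), Nat.zero_le (d * (d + e + d) * (d * e)),
        Nat.zero_le (d * (d + e + d) * (e * e))]

theorem log_size {A : ℕ} {v : ℕ × ℕ} (hv : Gen A v) :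
    |Real.log v.1 - (Real.log A - Real.log (small v)) / 3| ≤ 1 / 3 := by
  have hm : (0 : ℝ) < v.1 := by
    have := hv.1
    have := hv.2.1
    exact_mod_cast (by omega : 0 < v.1)
  have hs : (0 : ℝ) < small v := by exact_mod_cast small_pos hv
  have hA : (0 : ℝ) < A := by exact_mod_cast area_pos hv
  obtain ⟨h1, h2⟩ := area_bounds hv
  have h1' : (small v : ℝ) * v.1 ^ 3 ≤ 2 * A := by exact_mod_cast h1
  have h2' : (A : ℝ) ≤ 2 * (small v * v.1 ^ 3) := by exact_mod_cast h2
  have h3 := Real.log_le_log (by positivity) h1'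
  have h4 := Real.log_le_log hA h2'
  rw [Real.log_mul hs.ne' (by positivity), Real.log_pow, Real.log_mul (by norm_num) hA.ne'] at h3
  rw [Real.log_mul (by norm_num) (by positivity), Real.log_mul hs.ne' (by positivity),
    Real.log_pow] at h4
  push_cast at h3 h4
  have h5 := log_two_lt
  rw [abs_le]
  constructor <;> linarith

theorem log_large {A : ℕ} {v : ℕ × ℕ} (hv : Gen A v) {i : Fin 4} (hi : i ≠ si v) :
    |Real.log (part v i) - (Real.log A - Real.log (small v)) / 3| ≤ 2 := by
  have h0 := log_size hv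
  obtain ⟨h1, h2⟩ := large_part hv hi
  have hm : (0 : ℝ) < v.1 := by
    have := hv.1
    have := hv.2.1
    exact_mod_cast (by omega : 0 < v.1)
  have hp : (0 : ℝ) < part v i := by exact_mod_cast part_pos hv i
  have h1' : (v.1 : ℝ) ≤ 2 * part v i := by exact_mod_cast h1
  have h2' : (part v i : ℝ) ≤ 2 * v.1 := by exact_mod_cast h2
  have h3 := Real.log_le_log hm h1'
  have h4 := Real.log_le_log hp h2'
  rw [Real.log_mul (by norm_num) hp.ne'] at h3
  rw [Real.log_mul (by norm_num) hm.ne'] at h4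
  have h5 := log_two_lt
  rw [abs_le] at h0 ⊢
  constructor <;> linarith [h0.1, h0.2]

theorem log_small_le {A : ℕ} {v : ℕ × ℕ} (hv : Gen A v) :
    0 ≤ Real.log (small v) ∧ 4 * Real.log (small v) ≤ Real.log A := by
  have hs0 : (0 : ℝ) < small v := by exact_mod_cast small_pos hv
  have h2 : ((small v : ℝ)) ^ 4 ≤ A := by exact_mod_cast small_pow_four hv
  have h3 := Real.log_le_log (by positivity) h2
  rw [Real.log_pow] at h3
  push_cast at h3
  exact ⟨Real.log_natCast_nonneg _, h3⟩

theorem log_det_thin {A : ℕ} {v w : ℕ × ℕ} (hv : Gen A v) (hw : Gen A w) (hne : v ≠ w)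
    (ht : 2 * v.2 ≤ v.1 ↔ 2 * w.2 ≤ w.1) (t : ℝ) (ht0 : 0 ≤ t)
    (h1 : Real.log (small v) ≤ Real.log (small w) + t)
    (h2 : Real.log (small w) ≤ Real.log (small v) + t) :
    Real.log |((det v w : ℤ) : ℝ)| ≤ (Real.log A + 2 * Real.log (small v)) / 3 + t + 1 := by
  have hd := det_ne_zero hv hw hne
  have hd' : (0 : ℝ) < |((det v w : ℤ) : ℝ)| := by
    rw [abs_pos]
    exact_mod_cast hd
  have hle := det_le hv hw ht
  have hm : ∀ {v : ℕ × ℕ}, Gen A v → (0 : ℝ) < v.1 := by
    intro v hv
    have := hv.1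
    have := hv.2.1
    exact_mod_cast (by omega : 0 < v.1)
  have hs : ∀ {v : ℕ × ℕ}, Gen A v → (0 : ℝ) < small v := by
    intro v hv
    exact_mod_cast small_pos hv
  have hle' : |((det v w : ℤ) : ℝ)| ≤ max ((v.1 : ℝ) * small w) ((w.1 : ℝ) * small v) := by
    have : ((|det v w| : ℤ) : ℝ) ≤ ((max ((v.1 : ℤ) * small w) ((w.1 : ℤ) * small v) : ℤ) : ℝ) := by
      exact_mod_cast hle
    rw [Int.cast_abs] at this
    push_cast at this
    exact this
  have e1 := abs_le.mp (log_size hv)
  have e2 := abs_le.mp (log_size hw)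
  rcases le_total ((v.1 : ℝ) * small w) ((w.1 : ℝ) * small v) with h | h
  · rw [max_eq_right h] at hle'
    have h3 := Real.log_le_log hd' hle'
    rw [Real.log_mul (hm hw).ne' (hs hv).ne'] at h3
    linarith [e2.2]
  · rw [max_eq_left h] at hle'
    have h3 := Real.log_le_log hd' hle'
    rw [Real.log_mul (hm hv).ne' (hs hw).ne'] at h3
    linarith [e1.2]

end Pool.Agent.H83.LP
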